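import Mathlib
import Pool.Agent.H964.LF.Stm

set_option autoImplicit false

namespace Pool.Agent.H589.LF

open MeasureTheory Pool.Agent.H964.LF
open scoped ENNReal

theorem ch_inj {d : ℕ} {q q' : Site d} {e e' : Fin d → Bool} (h : ch q e = ch q' e') :
    q = q' ∧ e = e' := by
  have h1 : ∀ i, q i = q' i ∧ e i = e' i := by
    intro i
    have h2 := congrFun h i
    unfold ch at h2
    cases h3 : e i <;> cases h4 : e' i <;> simp [h3, h4] at h2 ⊢ <;> omega
  exact ⟨funext fun i => (h1 i).1, funext fun i => (h1 i).2⟩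

theorem ch_mem {d m : ℕ} {q : Site d} (hq : q ∈ Grid d m) (e : Fin d → Bool) :
    ch q e ∈ Grid d (m + 1) := by
  unfold Grid at hq ⊢
  rw [Fintype.mem_piFinset] at hq ⊢
  intro i
  have h1 := hq i
  rw [Finset.mem_range] at h1 ⊢
  unfold ch
  rw [pow_succ]
  split_ifs <;> omega

/-- the bound per cell -/
noncomputable def bb (d : ℕ) (ε : ℝ) (ℓ : ℕ) : ℝ := (4 ^ d * ε) ^ (2 ^ ℓ) / 4 ^ d

theorem bb_nonneg (d : ℕ) (ε : ℝ) (hε : 0 ≤ ε) (ℓ : ℕ) : 0 ≤ bb d ε ℓ := by
  unfold bb
  positivity

theorem bb_succ (d : ℕ) (ε : ℝ) (ℓ : ℕ) : bb d ε (ℓ + 1) = 4 ^ d * bb d ε ℓ ^ 2 := by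
  unfold bb
  have h4 : (4 : ℝ) ^ d ≠ 0 := by positivity
  rw [pow_succ 2 ℓ, pow_mul, div_pow]
  field_simp

open Classical in
theorem core (Ω : Type) [MeasurableSpace Ω] (μ : Measure Ω) (d J : ℕ)
    (B : Ω → Finset (Site d)) (ε : ℝ) (hε : 0 ≤ ε)
    (H : ∀ I ⊆ Grid d J, μ {ω | I ⊆ B ω} ≤ ENNReal.ofReal (ε ^ I.card) * μ Set.univ) :
    ∀ ℓ ≤ J, ∀ M ⊆ Grid d (J - ℓ),
      μ {ω | ∀ q ∈ M, bd (B ω) ℓ q} ≤ ENNReal.ofReal (bb d ε ℓ ^ M.card) * μ Set.univ := by
  intro ℓ
  induction ℓ with
  | zero =>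
    intro _ M hM
    have h1 := H M (by simpa using hM)
    have h2 : bb d ε 0 = ε := by
      unfold bb
      have h4 : (4 : ℝ) ^ d ≠ 0 := by positivity
      simp only [pow_zero, pow_one]
      field_simp
    rw [h2]
    exact h1
  | succ ℓ ih =>
    intro hJ M hM
    have ih' := ih (by omega)
    have hJl : J - ℓ = (J - (ℓ + 1)) + 1 := by omega
    -- the pieces
    let F := (↥M → (Fin d → Bool) × (Fin d → Bool))
    let A : F → Set Ω := fun f => {ω | ∀ q : ↥M, (f q).1 ≠ (f q).2 ∧
      bd (B ω) ℓ (ch q.1 (f q).1) ∧ bd (B ω) ℓ (ch q.1 (f q).2)}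
    have hsub : {ω | ∀ q ∈ M, bd (B ω) (ℓ + 1) q} ⊆ ⋃ f : F, A f := by
      intro ω hω
      have h1 : ∀ q : ↥M, ∃ p : (Fin d → Bool) × (Fin d → Bool), p.1 ≠ p.2 ∧
          bd (B ω) ℓ (ch q.1 p.1) ∧ bd (B ω) ℓ (ch q.1 p.2) := by
        intro q
        obtain ⟨e, e', h⟩ := hω q.1 q.2
        exact ⟨(e, e'), h⟩
      choose f hf using h1
      exact Set.mem_iUnion.mpr ⟨f, hf⟩
    have hA : ∀ f : F, μ (A f) ≤ ENNReal.ofReal (bb d ε ℓ ^ (2 * M.card)) * μ Set.univ := by
      intro f
      by_cases hd : ∀ q : ↥M, (f q).1 ≠ (f q).2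
      · let g : ↥M × Bool → Site d := fun x => ch x.1.1 (if x.2 then (f x.1).1 else (f x.1).2)
        have hg : Function.Injective g := by
          rintro ⟨q, b⟩ ⟨q', b'⟩ h
          obtain ⟨h1, h2⟩ := ch_inj h
          have h3 : q = q' := Subtype.ext h1
          subst h3
          have h4 : b = b' := by
            have h5 := hd q
            cases b <;> cases b'
            · rfl
            · simp at h2
              exact absurd h2.symm h5
            · simp at h2
              exact absurd h2 h5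
            · rfl
          rw [h4]
        have hcard : (Finset.univ.image g).card = 2 * M.card := by
          rw [Finset.card_image_of_injective _ hg, Finset.card_univ, Fintype.card_prod,
            Fintype.card_coe, Fintype.card_bool, mul_comm]
        have hgrid : Finset.univ.image g ⊆ Grid d (J - ℓ) := by
          intro x hx
          rw [Finset.mem_image] at hx
          obtain ⟨y, _, rfl⟩ := hx
          rw [hJl]
          exact ch_mem (hM y.1.2) _
        have h1 := ih' (Finset.univ.image g) hgrid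
        rw [hcard] at h1
        refine le_trans (measure_mono ?_) h1
        intro ω hω x hx
        rw [Finset.mem_image] at hx
        obtain ⟨y, _, rfl⟩ := hx
        obtain ⟨_, h2, h3⟩ := hω y.1
        by_cases hy : y.2 = true
        · have : g y = ch y.1.1 (f y.1).1 := by simp [g, hy]
          rw [this]
          exact h2
        · have : g y = ch y.1.1 (f y.1).2 := by simp [g, hy]
          rw [this]
          exact h3
      · have : A f = ∅ := by
          apply Set.eq_empty_of_forall_notMem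
          intro ω hω
          exact hd fun q => (hω q).1
        rw [this, measure_empty]
        exact bot_le
    calc μ {ω | ∀ q ∈ M, bd (B ω) (ℓ + 1) q} ≤ μ (⋃ f : F, A f) := measure_mono hsub
      _ ≤ ∑ f : F, μ (A f) := measure_iUnion_fintype_le _ _
      _ ≤ ∑ _f : F, ENNReal.ofReal (bb d ε ℓ ^ (2 * M.card)) * μ Set.univ :=
          Finset.sum_le_sum fun f _ => hA f
      _ = ENNReal.ofReal (bb d ε (ℓ + 1) ^ M.card) * μ Set.univ := by
          rw [Finset.sum_const, Finset.card_univ]
          have hF : Fintype.card F = (4 ^ d) ^ M.card := by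
            show Fintype.card (↥M → (Fin d → Bool) × (Fin d → Bool)) = _
            rw [Fintype.card_fun, Fintype.card_prod, Fintype.card_fun, Fintype.card_bool,
              Fintype.card_fin, Fintype.card_coe, ← mul_pow]
            norm_num
          rw [hF, nsmul_eq_mul, ← mul_assoc]
          congr 1
          have h0 : (((4 ^ d) ^ M.card : ℕ) : ℝ≥0∞) = ENNReal.ofReal (((4 : ℝ) ^ d) ^ M.card) := by
            rw [← ENNReal.ofReal_natCast]
            push_cast
            rfl
          rw [h0, ← ENNReal.ofReal_mul (by positivity), bb_succ, mul_pow, pow_mul (bb d ε ℓ)]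

theorem t_RN1 : S_RN1 := by
  intro Ω _ μ d J B ε hε H ℓ hℓ M hM
  refine le_trans (core Ω μ d J B ε hε H ℓ hℓ M hM) ?_
  gcongr
  · exact bb_nonneg d ε hε ℓ
  · unfold bb
    apply div_le_self (by positivity)
    exact one_le_pow₀ (by norm_num)

end Pool.Agent.H589.LF
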